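import Pool.Agent.helper10.TY.Spec
import Pool.Agent.helper46.DS.Sign

set_option autoImplicit false

namespace Pool.Agent.TY

open Matrix Polynomial Pool.Agent.GO Pool.Agent.AR Pool.Agent.RG MeasureTheory

theorem ADP : ADP_stmt := by
  intro F Γ m _ _ _ _ _ V ρ
  have h2 : (∀ i j i' j', (fun g => ρ g i j * ρ g⁻¹ i' j') ∈ alg V) →
      ∀ i j, (fun g => ad0 ρ g i j) ∈ alg V := by
    intro h
    have hc : ∀ (Z : Matrix (Fin 2) (Fin 2) F) (p q : Fin 2), (fun g => (ρ g * Z * ρ g⁻¹) p q) ∈ alg V := by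
      intro Z p q
      have h1 : (fun g => (ρ g * Z * ρ g⁻¹) p q) =
          ∑ l, ∑ k, Z k l • (fun g => ρ g p k * ρ g⁻¹ l q) := by
        ext g
        rw [Finset.sum_apply, Matrix.mul_apply]
        refine Finset.sum_congr rfl fun l _ => ?_
        rw [Finset.sum_apply, Matrix.mul_apply, Finset.sum_mul]
        refine Finset.sum_congr rfl fun k _ => ?_
        rw [Pi.smul_apply, smul_eq_mul]
        ring
      rw [h1]
      exact (alg V).sum_mem fun l _ => (alg V).sum_mem fun k _ => (alg V).smul_mem (h p k l q) _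
    intro i j
    have h3 : (fun g => ad0 ρ g i j) = fun g => co (ρ g * em (Pi.single j 1) * ρ g⁻¹) i := rfl
    rw [h3]
    fin_cases i
    · exact hc _ 0 1
    · exact hc _ 0 0
    · exact hc _ 1 0
  refine ⟨?_, h2, ?_⟩
  · intro had i j i' j'
    have h1 := Pool.Agent.DS.conj_mem V ρ had (Matrix.single j i' (1 : F)) i j'
    have h3 : (fun g => (ρ g * (Matrix.single j i' (1 : F) : Matrix (Fin 2) (Fin 2) F) * ρ g⁻¹) i j') =
        fun g => ρ g i j * ρ g⁻¹ i' j' := by
      ext g
      rw [Matrix.mul_apply]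
      rw [Finset.sum_eq_single i']
      · rw [Matrix.mul_single_apply_same, mul_one]
      · intro c _ hc
        rw [Matrix.mul_single_apply_of_ne _ _ _ _ _ hc, zero_mul]
      · intro h; exact absurd (Finset.mem_univ i') h
    rw [h3] at h1
    exact h1
  · intro hdet h i j i' j'
    exact Pool.Agent.DS.prod_mem V ρ (h2 h) hdet i j i' j'

end Pool.Agent.TY
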