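import Pool.Agent.helper10.TY.Spec

set_option autoImplicit false

namespace Pool.Agent.TY

open Matrix Polynomial Pool.Agent.GO Pool.Agent.AR Pool.Agent.RG MeasureTheory

theorem EIG : EIG_stmt := by
  intro F Γ m X _ _ _ _ _ _ V g T N a b B hB π heq p x hp hmem hTp
  classical
  by_contra hne
  push Not at hne
  let f : B →ₗ[F] B :=
    { toFun := fun y => ⟨fun j => tens V (a j) (b j) g *ᵥ y.1 j, hB y.1 y.2⟩ - x • y
      map_add' := by
        intro y y'
        apply Subtype.ext
        funext j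
        show tens V (a j) (b j) g *ᵥ (y.1 j + y'.1 j) - x • (y.1 j + y'.1 j) =
          (tens V (a j) (b j) g *ᵥ y.1 j - x • y.1 j) + (tens V (a j) (b j) g *ᵥ y'.1 j - x • y'.1 j)
        rw [Matrix.mulVec_add, smul_add]
        abel
      map_smul' := by
        intro c y
        apply Subtype.ext
        funext j
        show tens V (a j) (b j) g *ᵥ (c • y.1 j) - x • (c • y.1 j) =
          c • (tens V (a j) (b j) g *ᵥ y.1 j - x • y.1 j)
        rw [Matrix.mulVec_smul, smul_sub, smul_comm x c] }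
  have hf : ∀ y : B, f y = ⟨fun j => tens V (a j) (b j) g *ᵥ y.1 j, hB y.1 y.2⟩ - x • y := fun y => rfl
  have hfi : Function.Injective f := by
    rw [injective_iff_map_eq_zero]
    intro y hy
    apply Subtype.ext
    funext j
    show y.1 j = 0
    by_contra hy0
    apply hne j
    refine ⟨y.1 j, hy0, ?_⟩
    rw [hf, sub_eq_zero] at hy
    exact congrFun (congrArg Subtype.val hy) j
  have hfs : Function.Surjective f := LinearMap.injective_iff_surjective.1 hfi
  let Ψ : X →ₗ[F] X := T - x • LinearMap.id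
  have hΨ : ∀ w, Ψ w = T w - x • w := fun w => rfl
  have hR : ∀ w ∈ LinearMap.range π, Ψ w ∈ LinearMap.range π := by
    rintro _ ⟨y, rfl⟩
    rw [hΨ, ← heq y]
    exact ⟨⟨fun j => tens V (a j) (b j) g *ᵥ y.1 j, hB y.1 y.2⟩ - x • y, by rw [map_sub, map_smul]⟩
  have hs : Function.Surjective (Ψ.restrict hR) := by
    rintro ⟨w, y, rfl⟩
    obtain ⟨y', rfl⟩ := hfs y
    refine ⟨⟨π y', ⟨y', rfl⟩⟩, Subtype.ext ?_⟩
    show Ψ (π y') = π (f y')
    rw [hΨ, hf, map_sub, map_smul, heq y']
  have hi : Function.Injective (Ψ.restrict hR) := LinearMap.injective_iff_surjective.2 hs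
  have h1 : (Ψ.restrict hR) ⟨p, hmem⟩ = (Ψ.restrict hR) 0 := by
    rw [map_zero]
    apply Subtype.ext
    show Ψ p = 0
    rw [hΨ, hTp, sub_self]
  exact hp (congrArg Subtype.val (hi h1))

end Pool.Agent.TY
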