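import Pool.Agent.helper10.TY.Spec

set_option autoImplicit false

namespace Pool.Agent.TY

open Matrix Polynomial Pool.Agent.GO Pool.Agent.AR Pool.Agent.RG MeasureTheory

universe u v w

section
variable {F : Type u} [Field F] {r : ℕ}

theorem EVC_mul {e e' : Fin r → ℕ} {p q : MvPolynomial (Fin r × Fin 2) F} (hp : p ∈ MultiHom F e)
    (hq : q ∈ MultiHom F e') : p * q ∈ MultiHom F (e + e') := by
  classical
  intro m hm k
  obtain ⟨a, ha, b, hb, rfl⟩ := Finset.mem_add.1 (MvPolynomial.support_mul p q hm)
  have h1 := hp a ha k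
  have h2 := hq b hb k
  rw [Finsupp.add_apply, Finsupp.add_apply, Pi.add_apply]
  omega

theorem EVC_one : (1 : MvPolynomial (Fin r × Fin 2) F) ∈ MultiHom F (fun _ => 0) := by
  classical
  intro m hm k
  have h1 : m = 0 := by
    by_contra h0
    rw [MvPolynomial.mem_support_iff, MvPolynomial.coeff_one, if_neg (fun h => h0 h.symm)] at hm
    exact hm rfl
  subst h1
  rfl

/-- the linear form with coefficients `y` -/
noncomputable def EVC_L (k : Fin r) (y : Fin 2 → F) : MvPolynomial (Fin r × Fin 2) F :=
  ∑ j, MvPolynomial.C (y j) * MvPolynomial.X (k, j)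

theorem EVC_Lmem (k : Fin r) (y : Fin 2 → F) : EVC_L k y ∈ MultiHom F (Pi.single k 1) := by
  classical
  unfold EVC_L
  refine Submodule.sum_mem _ fun j _ => ?_
  intro m hm k'
  rw [MvPolynomial.C_mul_X_eq_monomial] at hm
  have h1 : m = Finsupp.single (k, j) 1 := by
    have h2 := MvPolynomial.support_monomial_subset hm
    exact Finset.mem_singleton.1 h2
  subst h1
  rw [Finsupp.single_apply, Finsupp.single_apply, Pi.single_apply]
  by_cases hk : k' = k
  · subst hk
    fin_cases j
    · simp
    · simp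
  · have h1 : ∀ i : Fin 2, ¬ (k, j) = (k', i) := fun i h => hk (congrArg Prod.fst h).symm
    rw [if_neg hk, if_neg (h1 0), if_neg (h1 1), add_zero]

theorem EVC_Lne (k : Fin r) (y : Fin 2 → F) (hy : y ≠ 0) : EVC_L k y ≠ 0 := by
  classical
  intro h
  apply hy
  funext i
  have h1 : MvPolynomial.coeff (Finsupp.single (k, i) 1) (EVC_L k y) = y i := by
    unfold EVC_L
    rw [MvPolynomial.coeff_sum, Finset.sum_eq_single i]
    · rw [MvPolynomial.C_mul_X_eq_monomial, MvPolynomial.coeff_monomial, if_pos rfl]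
    · intro j _ hj
      rw [MvPolynomial.C_mul_X_eq_monomial, MvPolynomial.coeff_monomial, if_neg]
      intro h2
      apply hj
      have h3 := (Finsupp.single_left_inj (one_ne_zero)).1 h2
      exact congrArg Prod.snd h3
    · intro hi
      exact absurd (Finset.mem_univ i) hi
  rw [h, MvPolynomial.coeff_zero] at h1
  exact h1.symm

theorem EVC_act {Γ : Type v} [Group Γ] (ρ : Fin r → Γ →* Matrix (Fin 2) (Fin 2) F) (g : Γ) (k : Fin r)
    (y : Fin 2 → F) : act ρ g (EVC_L k y) = EVC_L k (ρ k g *ᵥ y) := by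
  unfold EVC_L act
  rw [map_sum]
  simp only [map_mul, MvPolynomial.aeval_X, MvPolynomial.algHom_C, MvPolynomial.algebraMap_eq, Matrix.mulVec,
    dotProduct, Finset.mul_sum, map_sum, Finset.sum_mul]
  rw [Finset.sum_comm]
  refine Finset.sum_congr rfl fun i _ => Finset.sum_congr rfl fun j _ => ?_
  ring

theorem EVC_smul (k : Fin r) (c : F) (y : Fin 2 → F) :
    EVC_L k (c • y) = MvPolynomial.C c * EVC_L k y := by
  unfold EVC_L
  rw [Finset.mul_sum]
  refine Finset.sum_congr rfl fun j _ => ?_
  rw [Pi.smul_apply, smul_eq_mul, map_mul, mul_assoc]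

end

theorem EVC (hE : EIG_stmt.{u, v, w, u}) : EVC_stmt.{u, v, w} := by
  intro F Γ m _ _ _ _ V r ρ c g N a b B hB π hrange heq γ hγ
  classical
  have hy : ∀ k : Fin r, ∃ y : Fin 2 → F, k ∈ c → y ≠ 0 ∧ ρ k g *ᵥ y = γ k • y := by
    intro k
    by_cases hk : k ∈ c
    · obtain ⟨y, h1, h2⟩ := hγ k hk
      exact ⟨y, fun _ => ⟨h1, h2⟩⟩
    · exact ⟨0, fun h => absurd h hk⟩
  choose y hy using hy
  set p : MvPolynomial (Fin r × Fin 2) F := ∏ k ∈ c, EVC_L k (y k) with hp
  have hp0 : p ≠ 0 := by
    rw [hp, Finset.prod_ne_zero_iff]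
    intro k hk
    exact EVC_Lne k (y k) (hy k hk).1
  have hmem : ∀ c' : Finset (Fin r), (∏ k ∈ c', EVC_L k (y k)) ∈ MultiHom F (ind c') := by
    intro c'
    induction c' using Finset.induction_on with
    | empty =>
      rw [Finset.prod_empty]
      have h1 : (ind (∅ : Finset (Fin r))) = fun _ => 0 := by
        funext k
        unfold ind
        rw [if_neg (Finset.notMem_empty k)]
      rw [h1]
      exact EVC_one
    | insert k s hk ih =>
      rw [Finset.prod_insert hk]
      have h1 : ind (insert k s) = Pi.single k 1 + ind s := by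
        funext k'
        rw [Pi.add_apply, Pi.single_apply]
        unfold ind
        by_cases hkk : k' = k
        · subst hkk
          rw [if_pos (Finset.mem_insert_self _ _), if_pos rfl, if_neg hk]
        · by_cases hks : k' ∈ s
          · rw [if_pos (Finset.mem_insert_of_mem hks), if_neg hkk, if_pos hks]
          · rw [if_neg, if_neg hkk, if_neg hks]
            intro h2
            rcases Finset.mem_insert.1 h2 with h3 | h3
            · exact hkk h3
            · exact hks h3
      rw [h1]
      exact EVC_mul (EVC_Lmem k (y k)) ih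
  have hact : act ρ g p = (∏ k ∈ c, γ k) • p := by
    rw [hp, map_prod, MvPolynomial.smul_eq_C_mul, map_prod, ← Finset.prod_mul_distrib]
    refine Finset.prod_congr rfl fun k hk => ?_
    rw [EVC_act, (hy k hk).2, EVC_smul]
  exact hE V g (act ρ g).toLinearMap N a b B hB π heq p (∏ k ∈ c, γ k) hp0 ((hrange p).2 (hmem c)) hact

end Pool.Agent.TY
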