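import Pool.Agent.helper10.TY.Spec

set_option autoImplicit false

namespace Pool.Agent.TY

open Matrix Polynomial Pool.Agent.GO Pool.Agent.AR Pool.Agent.RG MeasureTheory

theorem MON1_prod {F : Type*} [Field F] {a n : ℕ} (z : Fin n → F) (φ : Fin a → Fin n) :
    ∏ k, z (φ k) = ∏ i, z i ^ (Finset.univ.filter fun k => φ k = i).card := by
  rw [← Finset.prod_fiberwise' Finset.univ φ z]
  refine Finset.prod_congr rfl fun i _ => ?_
  rw [Finset.prod_const]

theorem MON1 : MON1_stmt := by
  intro F Γ m _ _ _ _ _ V a b D n g z hz hbD x hx hxe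
  obtain ⟨γ, δ, hγ, hδ, h⟩ := eig_tens V a b g x hx hxe
  have hroot : ∀ y : F, Eig (V g) y → ∃ i, y = z i := by
    intro y hy
    rw [eig_iff_root, hz, Polynomial.IsRoot, Polynomial.eval_prod, Finset.prod_eq_zero_iff] at hy
    obtain ⟨i, _, hi⟩ := hy
    rw [Polynomial.eval_sub, Polynomial.eval_X, Polynomial.eval_C, sub_eq_zero] at hi
    exact ⟨i, hi⟩
  choose φ hφ using fun k => hroot (γ k) (hγ k)
  choose ψ hψ using fun k => hroot (δ k) (hδ k)
  have hc1 : ∀ i, (Finset.univ.filter fun k => φ k = i).card ≤ a := by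
    intro i
    have h1 := Finset.card_filter_le (Finset.univ : Finset (Fin a)) (fun k => φ k = i)
    rw [Finset.card_univ, Fintype.card_fin] at h1
    exact h1
  have hc2 : ∀ i, (Finset.univ.filter fun k => ψ k = i).card ≤ D := by
    intro i
    have h1 := Finset.card_filter_le (Finset.univ : Finset (Fin b)) (fun k => ψ k = i)
    rw [Finset.card_univ, Fintype.card_fin] at h1
    exact h1.trans hbD
  refine ⟨fun i => ⟨(Finset.univ.filter fun k => φ k = i).card +
    (D - (Finset.univ.filter fun k => ψ k = i).card), ?_⟩, ?_⟩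
  · have h1 := hc1 i
    omega
  · have h1 : ∏ k, δ k = ∏ i, z i ^ (Finset.univ.filter fun k => ψ k = i).card := by
      rw [← MON1_prod z ψ]
      exact Finset.prod_congr rfl fun k _ => hψ k
    have h2 : ∏ k, γ k = ∏ i, z i ^ (Finset.univ.filter fun k => φ k = i).card := by
      rw [← MON1_prod z φ]
      exact Finset.prod_congr rfl fun k _ => hφ k
    have h3 : (∏ i, z i) ^ D = (∏ i, z i ^ (Finset.univ.filter fun k => ψ k = i).card) *
        ∏ i, z i ^ (D - (Finset.univ.filter fun k => ψ k = i).card) := by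
      rw [← Finset.prod_mul_distrib, ← Finset.prod_pow]
      refine Finset.prod_congr rfl fun i _ => ?_
      rw [← pow_add, Nat.add_sub_cancel' (hc2 i)]
    rw [h3, ← mul_assoc, ← h1, h, h2, ← Finset.prod_mul_distrib]
    refine Finset.prod_congr rfl fun i _ => ?_
    rw [← pow_add]

end Pool.Agent.TY
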